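import Mathlib
import Pool.Agent.Helper38.Sym.FullGen

/-!
# The full dynamical Mordell-Lang property for a residue class of endomorphisms
-/

set_option autoImplicit false

namespace Pool.Agent.Results.MP_b15c9e_ag.FullClass

open MvPolynomial

/-- For all `N`, all `d` and every prime `p` not dividing `d` with `gcd (d, p - 1) ≠ 1` (so that
`d ≥ 2`) there is a tuple `F₀` of forms of degree `d` over the field with `p` elements with the
following property. Let `A` be a ring with an injective homomorphism `α` to `ℂ` and an injective
homomorphism `β` to the ring of `p`-adic integers. Every tuple `F` of forms of degree `d` over `A`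
with reduction `F₀` defines (through `α`) an endomorphism of complex projective `N`-space which has
the dynamical Mordell-Lang property: the return set of every closed subvariety (over `ℂ`) along the
orbit of every complex point is a finite union of arithmetic progressions. -/
theorem result (N d p : ℕ) [Fact p.Prime] (hd : 0 < d) (hpd : ¬ p ∣ d)
    (hg : Nat.gcd d (p - 1) ≠ 1) :
    ∃ F₀ : Fin (N + 1) → MvPolynomial (Fin (N + 1)) (ZMod p), (∀ i, (F₀ i).IsHomogeneous d) ∧
      ∀ (A : Type) [CommRing A] (α : A →+* ℂ) (β : A →+* ℤ_[p]),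
        Function.Injective α → Function.Injective β →
        ∀ F : Fin (N + 1) → MvPolynomial (Fin (N + 1)) A, (∀ i, (F i).IsHomogeneous d) →
          (∀ i, MvPolynomial.map (PadicInt.toZMod.comp β) (F i) = F₀ i) →
          (∀ x : Fin (N + 1) → ℂ, (∀ i, eval x (MvPolynomial.map α (F i)) = 0) → x = 0) ∧
          ∀ a : Fin (N + 1) → ℂ, a ≠ 0 →
          ∀ S : Set (MvPolynomial (Fin (N + 1)) ℂ), (∀ g ∈ S, ∃ e : ℕ, g.IsHomogeneous e) →
          ∃ T : Finset (ℕ × ℕ),
            {n : ℕ | ∀ g ∈ S, eval ((fun (x : Fin (N + 1) → ℂ) (i : Fin (N + 1)) =>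
                eval x (MvPolynomial.map α (F i)))^[n] a) g = 0}
              = {n : ℕ | ∃ q ∈ T, ∃ m : ℕ, n = q.1 * m + q.2} :=
  Pool.Agent.Helper38.Sym.full_gen N d p hd hpd hg

end Pool.Agent.Results.MP_b15c9e_ag.FullClass
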