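import Mathlib
import Pool.Agent.Helper72.TM2.T59

/-!
# MP_b15c9e_ag: tame points

Let `Φ` be an endomorphism of `P^N` over `ℂ` of degree at least two. A chain consists of closed
sets `Z₀, Z₁, …, Z_k = ∅` with `Φ(Z_i) ⊆ Z_i` and `Φ(Z_i ∩ Crit) ⊆ Z_(i+1)`. A point is tame if an
iterate of `Φ` maps it into the set `Z₀` of some chain, for example a preperiodic point whose cycle
contains no critical point. Let `V` be a closed set over `ℂ` such that every infinite closed subset
of `V` contains a tame point or, if `Φ` is defined over the algebraic numbers, infinitely many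
preperiodic points. If `V` has dimension at most one, then the return set to `V` of every point
over `ℂ` is a finite union of progressions. The same is true for closed sets `V` of any dimension
if there are a hypersurface `E` and a chain with `Φ(E) ⊆ Z₀` and `Φ(Z_i ∩ E) ⊆ Z_(i+1)`; then the
condition on `V` is satisfied for all `V`, see `tamePoints_of_hypersurface`.
-/

set_option autoImplicit false

namespace Pool.Agent.Results.MP_b15c9e_ag.TameSets

open MvPolynomial

variable {N : ℕ}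

/-- The forms `f` of degree `d ≥ 2` have no common zero, so define an endomorphism of `P^N`. -/
def Endomorphism (d : ℕ) (f : Fin (N + 1) → MvPolynomial (Fin (N + 1)) ℂ) : Prop :=
  2 ≤ d ∧ (∀ i, (f i).IsHomogeneous d) ∧
    ∀ x : Fin (N + 1) → ℂ, (∀ i, eval x (f i) = 0) → x = 0

/-- The orbit of `a`: the `n`-th iterate of the map given by the forms `f`, at `a`. -/
noncomputable def orbit (f : Fin (N + 1) → MvPolynomial (Fin (N + 1)) ℂ)
    (a : Fin (N + 1) → ℂ) (n : ℕ) : Fin (N + 1) → ℂ :=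
  (fun x i => eval x (f i))^[n] a

/-- The vectors `x` and `y` define the same point of `P^N`. -/
def Same (x y : Fin (N + 1) → ℂ) : Prop :=
  ∃ c : ℂ, c ≠ 0 ∧ y = c • x

/-- The point `x` is preperiodic. -/
def Preperiodic (f : Fin (N + 1) → MvPolynomial (Fin (N + 1)) ℂ) (x : Fin (N + 1) → ℂ) : Prop :=
  ∃ n m, n < m ∧ Same (orbit f x n) (orbit f x m)

/-- The point `x` is critical: the Jacobian determinant of `f` vanishes. -/
def Critical (f : Fin (N + 1) → MvPolynomial (Fin (N + 1)) ℂ) (x : Fin (N + 1) → ℂ) : Prop :=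
  (Matrix.of fun i j => eval x (pderiv j (f i))).det = 0

/-- The coefficients are algebraic numbers. -/
def Alg (g : MvPolynomial (Fin (N + 1)) ℂ) : Prop := ∀ m, IsAlgebraic ℚ (g.coeff m)

/-- The set `S` consists of forms. -/
def Forms (S : Set (MvPolynomial (Fin (N + 1)) ℂ)) : Prop := ∀ g ∈ S, ∃ e : ℕ, g.IsHomogeneous e

/-- The point `x` is in the closed set defined by the forms in `S`. -/
def On (S : Set (MvPolynomial (Fin (N + 1)) ℂ)) (x : Fin (N + 1) → ℂ) : Prop :=
  ∀ g ∈ S, eval x g = 0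

/-- The closed set defined by the forms in `S` contains infinitely many points with the
property `C`. -/
def Many (S : Set (MvPolynomial (Fin (N + 1)) ℂ)) (C : (Fin (N + 1) → ℂ) → Prop) : Prop :=
  ∃ p : ℕ → Fin (N + 1) → ℂ, (∀ n, p n ≠ 0 ∧ On S (p n) ∧ C (p n)) ∧
    ∀ n m, n ≠ m → ¬ Same (p n) (p m)

/-- The closed set defined by the forms in `S` has dimension at most one: the Krull dimension of
its homogeneous coordinate ring is at most two. -/
def DimLeOne (S : Set (MvPolynomial (Fin (N + 1)) ℂ)) : Prop :=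
  ringKrullDim (MvPolynomial (Fin (N + 1)) ℂ ⧸ Ideal.span S) ≤ 2

/-- Closed sets `Z 0, ..., Z k` with `Φ(Z i) ⊆ Z i`, with `Φ(x) ∈ Z (i + 1)` for all `x ∈ Z i`
which are critical or in the set `E`, and with `Z k` empty. -/
structure Chain (f : Fin (N + 1) → MvPolynomial (Fin (N + 1)) ℂ) (E : Set (Fin (N + 1) → ℂ))
    (k : ℕ) (Z : ℕ → Set (MvPolynomial (Fin (N + 1)) ℂ)) : Prop where
  forms : ∀ i ≤ k, Forms (Z i)
  invariant : ∀ i < k, ∀ x, x ≠ 0 → On (Z i) x → On (Z i) (orbit f x 1)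
  down : ∀ i < k, ∀ x, x ≠ 0 → On (Z i) x → Critical f x ∨ x ∈ E → On (Z (i + 1)) (orbit f x 1)
  empty : ∀ x, x ≠ 0 → ¬ On (Z k) x

/-- The point `p` is tame: `Φ^s(p) ∈ Z 0` for a number `s` and a chain. -/
def Tame (f : Fin (N + 1) → MvPolynomial (Fin (N + 1)) ℂ) (p : Fin (N + 1) → ℂ) : Prop :=
  ∃ (k s : ℕ) (Z : ℕ → Set (MvPolynomial (Fin (N + 1)) ℂ)), Chain f ∅ k Z ∧
    On (Z 0) (orbit f p s)

/-- Every infinite closed subset of `V` contains a tame point or, if `Φ` is defined over the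
algebraic numbers, infinitely many preperiodic points. -/
def TamePoints (f : Fin (N + 1) → MvPolynomial (Fin (N + 1)) ℂ)
    (V : Set (MvPolynomial (Fin (N + 1)) ℂ)) : Prop :=
  ∀ T, Forms T → (∀ x, On T x → On V x) → Many T (fun _ => True) →
    (∃ p, p ≠ 0 ∧ On T p ∧ Tame f p) ∨ (∀ i, Alg (f i)) ∧ Many T (Preperiodic f)

/-- There is a hypersurface `E` with `Φ(E) ⊆ Z 0` for a chain with the exceptional set `E`. -/
def TameHypersurface (f : Fin (N + 1) → MvPolynomial (Fin (N + 1)) ℂ) : Prop :=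
  ∃ (G : MvPolynomial (Fin (N + 1)) ℂ) (r k : ℕ) (Z : ℕ → Set (MvPolynomial (Fin (N + 1)) ℂ)),
    1 ≤ r ∧ G.IsHomogeneous r ∧ Chain f {x | eval x G = 0} k Z ∧
      ∀ x, x ≠ 0 → eval x G = 0 → On (Z 0) (orbit f x 1)

/-! ### The forms multiplied by the variables -/

/-- The forms of `S` multiplied by the variables. -/
def up (S : Set (MvPolynomial (Fin (N + 1)) ℂ)) : Set (MvPolynomial (Fin (N + 1)) ℂ) :=
  {h | ∃ g ∈ S, ∃ j, h = X j * g}

lemma up_forms {S : Set (MvPolynomial (Fin (N + 1)) ℂ)} (hS : Forms S) : Forms (up S) := by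
  rintro _ ⟨g, hg, j, rfl⟩
  obtain ⟨e, he⟩ := hS g hg
  exact ⟨1 + e, (isHomogeneous_X ℂ j).mul he⟩

lemma up_of_on {S : Set (MvPolynomial (Fin (N + 1)) ℂ)} {x : Fin (N + 1) → ℂ} (h : On S x) :
    On (up S) x := by
  rintro _ ⟨g, hg, j, rfl⟩
  rw [map_mul, h g hg, mul_zero]

lemma up_zero (S : Set (MvPolynomial (Fin (N + 1)) ℂ)) : On (up S) (0 : Fin (N + 1) → ℂ) := by
  rintro _ ⟨g, hg, j, rfl⟩
  rw [map_mul, eval_X, Pi.zero_apply, zero_mul]

lemma on_of_up {S : Set (MvPolynomial (Fin (N + 1)) ℂ)} {x : Fin (N + 1) → ℂ} (hx : x ≠ 0)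
    (h : On (up S) x) : On S x := by
  intro g hg
  obtain ⟨j, hj⟩ := Function.ne_iff.1 hx
  have h1 := h _ ⟨g, hg, j, rfl⟩
  rw [map_mul, eval_X, mul_eq_zero] at h1
  exact h1.resolve_left hj

lemma zero_map {d : ℕ} {f : Fin (N + 1) → MvPolynomial (Fin (N + 1)) ℂ} (hf : Endomorphism d f) :
    (fun i => eval (0 : Fin (N + 1) → ℂ) (f i)) = 0 := by
  funext i
  have h2 := Pool.Agent.Helper38.TQ.eval_smul_hom (hf.2.1 i) 0 0
  rw [zero_smul, zero_pow (by have := hf.1; omega), zero_mul] at h2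
  exact h2

lemma critical_iff (f : Fin (N + 1) → MvPolynomial (Fin (N + 1)) ℂ) (x : Fin (N + 1) → ℂ) :
    eval x (Pool.Agent.Helper30.TKN.jf f) = 0 ↔ Critical f x := by
  rw [Pool.Agent.Helper30.TKN.eval_jf]
  rfl

lemma chain_up {d k : ℕ} {f : Fin (N + 1) → MvPolynomial (Fin (N + 1)) ℂ}
    (hf : Endomorphism d f) {E : Set (Fin (N + 1) → ℂ)}
    {Z : ℕ → Set (MvPolynomial (Fin (N + 1)) ℂ)} (hZ : Chain f E k Z)
    {q : MvPolynomial (Fin (N + 1)) ℂ} (hq : ∀ x, eval x q = 0 → Critical f x ∨ x ∈ E) :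
    Pool.Agent.Helper30.THC.ChainC f q k fun i => up (Z i) := by
  refine ⟨fun i hi => up_forms (hZ.forms i hi), fun i hi x hx => ?_, fun i hi x hx hqx => ?_,
    fun x hx => ?_⟩
  · by_cases h0 : x = 0
    · rw [h0, zero_map hf]
      exact up_zero _
    · exact up_of_on (hZ.invariant i hi x h0 (on_of_up h0 hx))
  · by_cases h0 : x = 0
    · rw [h0, zero_map hf]
      exact up_zero _
    · exact up_of_on (hZ.down i hi x h0 (on_of_up h0 hx) (hq x hqx))
  · by_contra h0
    exact hZ.empty x h0 (on_of_up h0 hx)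

/-- If there is a tame hypersurface, then every infinite closed set contains a tame point. -/
theorem tamePoints_of_hypersurface {f : Fin (N + 1) → MvPolynomial (Fin (N + 1)) ℂ}
    (h : TameHypersurface f) (V : Set (MvPolynomial (Fin (N + 1)) ℂ)) : TamePoints f V := by
  obtain ⟨G, r, k, Z, hr, hG, hZ, hGZ⟩ := h
  rintro T hT - ⟨p, hp, hpp⟩
  obtain ⟨y, hy0, hyT, hyG⟩ := Pool.Agent.Helper30.THC.exists_zero_of_infinite hT hr hG p
    (fun n => (hp n).1) hpp fun n => (hp n).2.1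
  exact Or.inl ⟨y, hy0, hyT, k, 1, Z, ⟨hZ.forms, hZ.invariant, fun i hi x hx hxZ hc =>
    hZ.down i hi x hx hxZ (hc.imp_right fun h => absurd h (Set.notMem_empty x)), hZ.empty⟩,
    hGZ y hy0 hyG⟩

/-- **Theorem.** Let `Φ` be an endomorphism of `P^N` over `ℂ` of degree `d ≥ 2`, `a` a point and
`V` a closed set, over `ℂ`. Suppose that every infinite closed subset of `V` contains a tame point
or, if `Φ` is defined over the algebraic numbers, infinitely many preperiodic points. Suppose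
moreover that `V` has dimension at most one, or that `Φ` satisfies `TameHypersurface`. Then the set
of all `n` with `Φ^n(a) ∈ V` is a finite union of arithmetic progressions. -/
theorem result (N d : ℕ) (f : Fin (N + 1) → MvPolynomial (Fin (N + 1)) ℂ) (hf : Endomorphism d f)
    (a : Fin (N + 1) → ℂ) (ha : a ≠ 0) (V : Set (MvPolynomial (Fin (N + 1)) ℂ)) (hV : Forms V)
    (hT : TamePoints f V) (h : DimLeOne V ∨ TameHypersurface f) :
    ∃ T : Finset (ℕ × ℕ), {n : ℕ | On V (orbit f a n)} =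
      {n : ℕ | ∃ q ∈ T, ∃ m : ℕ, n = q.1 * m + q.2} := by
  have hf' : Pool.Agent.Helper38.TQ.IsEndo d f := ⟨hf.1, hf.2.1, hf.2.2⟩
  rcases h with hdim | ⟨G, r, k, Z, hr, hG, hZ, hGZ⟩
  · refine Pool.Agent.Helper30.THD.partThree hf' ha hV hdim ?_
    rintro T hTf hTV ⟨p, hp0, hpp, hpT⟩
    rcases hT T hTf hTV ⟨p, fun n => ⟨hp0 n, hpT n, trivial⟩, hpp⟩ with
      ⟨q, hq0, hqT, k, s, Z, hZ, hs⟩ | ⟨hfa, q, hq, hqq⟩
    · exact Or.inl ⟨q, hq0, hqT, k, fun i => up (Z i), chain_up hf hZ fun x hx =>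
        Or.inl ((critical_iff f x).1 hx), s, up_of_on hs⟩
    · exact Or.inr ⟨hfa, q, fun n => (hq n).1, hqq, fun n => (hq n).2.1, fun n => (hq n).2.2⟩
  · refine Pool.Agent.Helper30.THC.partOne hf' hr hG (Z := fun i => up (Z i))
      (chain_up hf hZ fun x hx => ?_) (fun x hx => ?_) ha hV
    · rw [map_mul, mul_eq_zero] at hx
      exact hx.imp_left (critical_iff f x).1
    · by_cases h0 : x = 0
      · rw [h0, zero_map hf]
        exact up_zero _
      · exact up_of_on (hGZ x h0 hx)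

end Pool.Agent.Results.MP_b15c9e_ag.TameSets
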