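import Mathlib
import Pool.Agent.Helper29.MG2.T65

/-!
# MP_b15c9e_ag: return sets up to tower gaps

Endomorphisms of projective space over the complex numbers of degree at least two, given by
forms; closed sets are given by sets of forms.
-/

set_option autoImplicit false

namespace Pool.Agent.Results.MP_b15c9e_ag.TowerGaps

open MvPolynomial

variable {N : ℕ}

/-- The forms `f` of degree `d ≥ 2` have no common zero, so define an endomorphism of `P^N`. -/
def Endomorphism (d : ℕ) (f : Fin (N + 1) → MvPolynomial (Fin (N + 1)) ℂ) : Prop :=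
  2 ≤ d ∧ (∀ i, (f i).IsHomogeneous d) ∧
    ∀ x : Fin (N + 1) → ℂ, (∀ i, eval x (f i) = 0) → x = 0

/-- The orbit of `a`: the `n`-th iterate of the map given by the forms `f`, at `a`. -/
noncomputable def orbit (f : Fin (N + 1) → MvPolynomial (Fin (N + 1)) ℂ)
    (a : Fin (N + 1) → ℂ) (n : ℕ) : Fin (N + 1) → ℂ :=
  (fun x i => eval x (f i))^[n] a

/-- Finite unions of progressions and of finitely many sets `G j` with tower gaps: if `n < m` are
in the same set `G j`, then `m > c A ^ n`, where `A > 1` and `c > 0` are fixed. -/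
def ProgressionsAndGaps (S : Set ℕ) : Prop :=
  ∃ (T : Finset (ℕ × ℕ)) (A c : ℝ) (r : ℕ) (G : Fin r → Set ℕ), 1 < A ∧ 0 < c ∧
    (∀ j, ∀ n ∈ G j, ∀ m ∈ G j, n < m → c * A ^ n < m) ∧
    S = {n | ∃ p ∈ T, ∃ m : ℕ, n = p.1 * m + p.2} ∪ ⋃ j, G j

/-- **Theorem.** Let `Φ` be an endomorphism of `P^N` over `ℂ` of degree `d ≥ 2`, `a` a point and
`V` a closed set (defined by the forms in `V`) of dimension at most one; for `N = 2`, let `V` be
any closed set. Then the return set is the union of finitely many arithmetic progressions and of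
finitely many sets with tower gaps. -/
theorem result (d : ℕ) (f : Fin (N + 1) → MvPolynomial (Fin (N + 1)) ℂ) (hf : Endomorphism d f)
    (a : Fin (N + 1) → ℂ) (ha : a ≠ 0) (V : Set (MvPolynomial (Fin (N + 1)) ℂ))
    (hV : ∀ g ∈ V, ∃ e : ℕ, g.IsHomogeneous e)
    (h : N = 2 ∨ ringKrullDim (MvPolynomial (Fin (N + 1)) ℂ ⧸ Ideal.span V) ≤ 2) :
    ProgressionsAndGaps {n | ∀ g ∈ V, eval (orbit f a n) g = 0} := by
  obtain ⟨hd, hh, hnz⟩ := hf
  obtain ⟨T, E, hE, hS⟩ := Pool.Agent.Helper29.TG3.sgood_all ⟨hd, hh, hnz⟩ ha hV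
    (h.imp_left fun h => h.le)
  obtain ⟨A, c, r, G, hA, hc, hG, hgap⟩ := Pool.Agent.Helper29.TG.exists_gaps hE
  exact ⟨T, A, c, r, G, hA, hc, hgap, by rw [← hG]; exact hS⟩

end Pool.Agent.Results.MP_b15c9e_ag.TowerGaps
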